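import Pool.Agent.Q293.TO.Met

/-!
# A combinatorially two-orbit LFC tiling of Euclidean 3-space (MP_95e952_co, Q1)

There is a locally finite face-to-face tiling of Euclidean 3-space by convex polytopes which is
combinatorially two-orbit and whose face lattice is not isomorphic to the face lattice of a
two-orbit tiling.  Its tiles are tetrahedra and (combinatorial) icosahedra; the tiling is the
vertical projection of the boundary of the convex hull of the vertices of the alternated
hyperbolic honeycomb of type 4,3,5 in Minkowski space.
-/

namespace Pool.Agent.Results.MP_95e952_co.AlternatedTiling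

open Pool.Agent.Q293.RT Pool.Agent.Q293.TO

theorem result : ∃ T : Set (Set (Eu 3)), IsLFCTiling T ∧ CombTwoOrbit T ∧
    ∀ T' : Set (Set (Eu 3)), IsLFCTiling T' → MetricTwoOrbit T' →
      IsEmpty (FaceLat T ≃o FaceLat T') :=
  Pool.Agent.Q293.TO.main

end Pool.Agent.Results.MP_95e952_co.AlternatedTiling
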